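import Mathlib
import Pool.Agent.V8H48.OP.Defs
import Pool.Agent.V8H48.OP.PDefs
import Pool.Agent.V8H48.OP.P6

set_option autoImplicit false

namespace Pool.Agent.Results.MP_343319_al.AlternatingAndPSLTwo

open Pool.Agent.V8H48.OP

/-- Complete classification of the triples `(M, N, G)` with `|M| |N| = |G|` whose three members
are alternating groups `A_n` (`n ≥ 5`) or groups `PSL_2(q)` (`q ≥ 4`), not all three merely
alternating: exactly the triples with orders `(|A_n|, n + 1, |A_{n+1}|)` and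
`(|A_{q-2}|, |PSL_2(q)|, |A_{q+1}|)`, `q = 2^f ≥ 8`; `G` is never a `PSL_2(q)`. -/
theorem result (M N G : Type) [Group M] [Group N] [Group G] [Finite M] [Finite N] [Finite G]
    (hM : IsAlt M ∨ IsPSL2 M) (hN : IsAlt N ∨ IsPSL2 N) (hG : IsAlt G ∨ IsPSL2 G)
    (h1 : IsPSL2 M ∨ IsPSL2 N ∨ IsPSL2 G) :
    Nat.card M * Nat.card N = Nat.card G ↔
    ¬ IsPSL2 G ∧ (Known (Nat.card M) (Nat.card N) (Nat.card G) ∨
      Known (Nat.card N) (Nat.card M) (Nat.card G)) :=
  main M N G hM hN hG h1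

end Pool.Agent.Results.MP_343319_al.AlternatingAndPSLTwo
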