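import Mathlib
import Pool.Agent.V8H48.OP.Defs
import Pool.Agent.V8H48.OP.Asm2

set_option autoImplicit false

namespace Pool.Agent.Results.MP_343319_al.LargeSylow

open Nat Pool.Agent.V8H48.OP

/-- Let `|M| |N| = |G|`, where either `G` is alternating, `M` has a Sylow subgroup of order larger
than `|M| ^ (1/3)`, and `N` is alternating or has such a Sylow subgroup as well; or `M`, `N` are
alternating and `G` has such a Sylow subgroup.  Then, with the exception of finitely many triples
(`|G| ≤ 517! / 2`), `N = A_m` and `G = A_{m+t}` with `t = 1, 2` or `3`; and if `t = 3`, then `M`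
has a Sylow `p`-subgroup of order `m + 2`, or `m + 3` (`p` odd), or `2(m+1)` or `2(m+3)`
(`p = 2`). -/
theorem result (M N G : Type) [Group M] [Group N] [Group G] [Finite M] [Finite N] [Finite G]
    (h : Nat.card M * Nat.card N = Nat.card G)
    (hc : (CubeSylow M ∧ (IsAlt N ∨ CubeSylow N) ∧ IsAlt G) ∨
      (IsAlt M ∧ IsAlt N ∧ CubeSylow G)) :
    (∃ m : ℕ, 5 ≤ m ∧ Nonempty (N ≃* alternatingGroup (Fin m)) ∧
      (Nonempty (G ≃* alternatingGroup (Fin (m + 1))) ∨
       Nonempty (G ≃* alternatingGroup (Fin (m + 2))) ∨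
       (Nonempty (G ≃* alternatingGroup (Fin (m + 3))) ∧
        ∃ p : ℕ, p.Prime ∧ ∃ P : Sylow p M, Nat.card P = m + 2 ∨
          (p ≠ 2 ∧ Nat.card P = m + 3) ∨
          (p = 2 ∧ (Nat.card P = 2 * (m + 1) ∨ Nat.card P = 2 * (m + 3)))))) ∨
    Nat.card G ≤ 517 ! / 2 :=
  asm2 M N G h hc

end Pool.Agent.Results.MP_343319_al.LargeSylow
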