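import Mathlib
import Pool.Agent.V8H48.OP.K1

set_option autoImplicit false

namespace Pool.Agent.Results.MP_343319_al.PSLHigherRank

/-- For every `k ≥ 4`, every finite field `F` and `m ≥ 5`: if `|A_m| |PSL_k(F)| = |A_n|`, then
`n = m + 1` or `n = m + 2`. -/
theorem result (k m n : ℕ) (F : Type) [Field F] [Finite F] (hk : 4 ≤ k) (hm : 5 ≤ m)
    (h : Nat.card (alternatingGroup (Fin m)) *
      Nat.card (Matrix.ProjectiveSpecialLinearGroup (Fin k) F) =
        Nat.card (alternatingGroup (Fin n))) : n = m + 1 ∨ n = m + 2 :=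
  Pool.Agent.V8H48.OP.pslk k m n F hk hm h

end Pool.Agent.Results.MP_343319_al.PSLHigherRank
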