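import Mathlib
import Pool.Agent.V8H48.OP.S3b

set_option autoImplicit false

namespace Pool.Agent.Results.MP_343319_al.PSLThree

/-- For every finite field `F` and `m ≥ 5`: `|A_m| |PSL_3(F)| = |A_n|` if and only if
`n = m + 1 = |PSL_3(F)|`. -/
theorem result (m n : ℕ) (F : Type) [Field F] [Finite F] (hm : 5 ≤ m) :
    Nat.card (alternatingGroup (Fin m)) *
      Nat.card (Matrix.ProjectiveSpecialLinearGroup (Fin 3) F) =
        Nat.card (alternatingGroup (Fin n)) ↔
    n = m + 1 ∧ n = Nat.card (Matrix.ProjectiveSpecialLinearGroup (Fin 3) F) :=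
  Pool.Agent.V8H48.OP.psl3 m n F hm

end Pool.Agent.Results.MP_343319_al.PSLThree
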